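import Pool.Agent.PCO.StmtsB

/-!
# PCO squad, row NOI (helper98)
-/

set_option autoImplicit false

open Matrix Filter Topology

namespace Pool.Agent.PCO.H98

open Pool.Agent.PFS Pool.Agent.PFJ

theorem noi (hWBF : WbfStmt) (hBF1 : Bf1Stmt) (hBF2 : Bf2Stmt) (hBF3 : Bf3Stmt)
    (hHSQ : HsqStmt) (hHOR : HorStmt) (hSPZ : SpzStmt) (hSPF : SpfStmt) (hACN : AcnStmt)
    (hHLM : HlmStmt) (hHEQ : HeqStmt) : NoiStmt := by
  intro n C Γ d h U0 v0 v0' hb0 hb0' hd0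
  by_contra hne
  push Not at hne
  obtain ⟨U, v, v', a, ρ, hs⟩ := hSPZ n C Γ d h U0 v0 v0' hb0 hb0' hd0 hne
  have hcc : CC C Γ := h.toCC
  obtain ⟨ψ, hψ, -, -⟩ := (hBF3 n C Γ hcc h.maxc U v hs.box).1 a hs.bd
  obtain ⟨c, hcB, hc1, hcinf⟩ := hHSQ n C Γ hcc h.maxc U v a ψ hs.box hs.bd hψ
  obtain ⟨hvL, -, -, -, hstr, hCiff, -, hLam, -⟩ := hBF1 n C Γ hcc h.maxc U v hs.box
  have ha0 : a ≠ 0 := hs.bd.2.2.1
  have hind : ∀ m, Ind2 a (c m) := by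
    intro m α β hab
    have h1 := congrArg ψ hab
    rw [map_add, map_smul, map_smul, map_zero, hψ.at_, hc1 m, smul_zero, zero_add, smul_eq_mul,
      mul_one] at h1
    refine ⟨?_, h1⟩
    rw [h1, zero_smul, add_zero] at hab
    exact (smul_eq_zero.mp hab).resolve_right ha0
  have hy : ∀ m, a + c m + v ∈ C := by
    intro m
    have hu := hstr a hs.bd.1 (c m) (hcB m).1 hs.bd.2.1 (hcB m).2.1 (hind m)
    have h1 := (hCiff (a + c m) hu.1 1).2 ⟨hu, one_pos⟩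
    rwa [one_smul] at h1
  have hH := hcc.hul
  have hyH : ∀ m, a + c m + v ∈ Hull C Γ := fun m =>
    hH.add _ (hH.add _ (hH.lamHull _ (hLam a hs.bd.1 hs.bd.2.1 ha0).1) _
      (hH.lamHull _ (hLam (c m) (hcB m).1 (hcB m).2.1 (hcB m).2.2.1).1)) _ (hH.lamHull _ hvL)
  obtain ⟨φ, g, s, q, hφ, hg, hspos, hq, hlim⟩ :=
    Pool.Agent.PFS.H60.zom n C Γ hcc (fun m => a + c m + v) hy hyH
  obtain ⟨φ1, U1, v1, v1', a1, hφ1, hs1, hL1, hv1, hv1', ha1⟩ :=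
    hHLM n C Γ d h U v v' a ρ hs (fun m => c (φ m)) g s q (fun m => hcB _) hg hspos hq hlim
  have hbf2 := hBF2 n C Γ hcc h.maxc U v hs.box
  have hbx : ∀ m, Bx C Γ (img (g (φ1 m)) U) (s (φ1 m) • act (g (φ1 m)) v) := fun m =>
    (hbf2.2.2.2.2.2.1 (g (φ1 m)) (hg _) (s (φ1 m)) (hspos _)).1
  have hfin : ∀ m, Module.finrank ℝ (img (g (φ1 m)) U) = d := fun m => by
    rw [(hWBF n).2.2.2.2, hs.dim]
  have hev := hHEQ n C Γ d h U1 v1 v1' a1 ρ hs1 (fun m => img (g (φ1 m)) U)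
    (fun m => s (φ1 m) • act (g (φ1 m)) v) (fun m => s (φ1 m) • act (g (φ1 m)) a) hbx hfin
    (fun m => (img (g (φ1 m)) U).smul_mem _ (mem_img.2 ⟨a, hs.bd.1, rfl⟩)) hL1 hv1 ha1
  obtain ⟨N, hN⟩ := eventually_atTop.1 hev
  have hspc := (hSPF n C Γ d h U v v' a ρ hs).2.2.2.2
  have hspcm : ∀ m, Spc C Γ d U1 (s (φ1 (m + N)) • act (g (φ1 (m + N))) v)
      (s (φ1 (m + N)) • act (g (φ1 (m + N))) v') (s (φ1 (m + N)) • act (g (φ1 (m + N))) a) ρ := by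
    intro m
    have h1 := hspc (g (φ1 (m + N))) (hg _) (s (φ1 (m + N))) (hspos _)
    rw [hN (m + N) (Nat.le_add_left N m)] at h1
    exact h1
  have hsub : Tendsto (fun m : ℕ => φ1 (m + N)) atTop atTop :=
    hφ1.tendsto_atTop.comp (tendsto_add_atTop_nat N)
  refine hHOR n C Γ d h U v a ψ (fun m => c (φ (φ1 (m + N)))) (fun m => g (φ1 (m + N)))
    (fun m => s (φ1 (m + N))) q hs.box hs.dim hs.bd hψ (fun m => hcB _) (fun m => hc1 _)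
    (hcinf.comp (hφ.tendsto_atTop.comp hsub)) (fun m => hg _) (fun m => hspos _) hq
    (hlim.comp hsub) ?_
  intro m l
  obtain ⟨κ, hκ⟩ := hACN n C Γ d h U1 _ _ _ _ _ _ ρ ρ (hspcm l) (hspcm m)
  refine ⟨(s (φ1 (m + N)))⁻¹ * (κ * s (φ1 (l + N))), ?_⟩
  rw [mul_smul, mul_smul, ← hκ, smul_smul, inv_mul_cancel₀ (hspos _).ne', one_smul]

end Pool.Agent.PCO.H98
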